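import Pool.Agent.Work.MP_e10cd8_co.DigMain
import Pool.Agent.Work.MP_e10cd8_co.Final

/-!
An exponential improvement of the binomial upper bound for independent sets against transitive
tournaments, for all pairs of sizes.
-/

namespace Pool.Agent.Results.MP_e10cd8_co.AllRatios

open Pool.Agent.Work.MP_e10cd8_co

theorem result : ∃ C : ℝ, ∀ n m N : ℕ, 1 ≤ n → 1 ≤ m →
    C * ((n : ℝ) + m) ^ 2 * Real.exp (-(0.09 * min (n : ℝ) m)) * (2 ^ m * (n + m).choose n) ≤ N →
    ∀ G : Digraph (Fin N), (∀ v, ¬ G.Adj v v) →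
      (∃ S : Finset (Fin N), S.card = n ∧ ∀ u ∈ S, ∀ v ∈ S, ¬ G.Adj u v) ∨
        ∃ f : Fin m → Fin N, Function.Injective f ∧ ∀ i j, i < j → G.Adj (f i) (f j) := by
  obtain ⟨C, _, h⟩ := dig_all
  refine ⟨C, fun n m N hn hm hN G hG => final_form G hG (X := Finset.univ) ?_⟩
  exact h _ G.Adj n m hn hm _ (by simpa using hN)

end Pool.Agent.Results.MP_e10cd8_co.AllRatios
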