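import Pool.Agent.Work.MP_e10cd8_co.Tq.Unif

/-!
A polynomial improvement of the neighbourhood recurrence bound for independent sets against
transitive tournaments, for all pairs of sizes; the case `n = 2` is about tournaments.
-/

namespace Pool.Agent.Results.MP_e10cd8_co.PolyGain

theorem result : ∃ c C : ℝ, 0 < c ∧ ∀ n m N : ℕ, 2 ≤ n → 1 ≤ m →
    C * (((n : ℝ) - 1) / (n + m - 2)) ^ c * (2 ^ m * ((n + m - 3).choose (m - 1) : ℝ)) ≤ N →
    ∀ G : Digraph (Fin N), (∀ v, ¬ G.Adj v v) →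
      (∃ S : Finset (Fin N), S.card = n ∧ ∀ u ∈ S, ∀ v ∈ S, ¬ G.Adj u v) ∨
        ∃ f : Fin m → Fin N, Function.Injective f ∧ ∀ i j, i < j → G.Adj (f i) (f j) :=
  Pool.Agent.Work.MP_e10cd8_co.Tq.unif

end Pool.Agent.Results.MP_e10cd8_co.PolyGain
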