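import Pool.Agent.Work.MP_e10cd8_co.Gap.Top

/-!
The size of the least number of vertices that forces an independent set of size `n` or a
transitive tournament of size `m`, for all `n ≥ 1` and `m ≥ 2`.
-/

namespace Pool.Agent.Results.MP_e10cd8_co.SharpOrder

theorem result :
    ∃ c C : ℝ, 0 < c ∧ ∀ n m : ℕ, 1 ≤ n → 2 ≤ m →
      ∃ k : ℕ,
        IsLeast {N : ℕ | ∀ G : Digraph (Fin N), (∀ v, ¬ G.Adj v v) →
          (∃ S : Finset (Fin N), S.card = n ∧ ∀ u ∈ S, ∀ v ∈ S, ¬ G.Adj u v) ∨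
            ∃ f : Fin m → Fin N, Function.Injective f ∧ ∀ i j, i < j → G.Adj (f i) (f j)} k ∧
        c ^ m * ((n + m - 2).choose (m - 1) : ℝ) / Real.log (2 + n / m) ^ (m - 2) ≤ k ∧
          (k : ℝ) ≤ C ^ m * ((n + m - 2).choose (m - 1) : ℝ) / Real.log (2 + n / m) ^ (m - 2) :=
  Pool.Agent.Work.MP_e10cd8_co.Gap.sharp

end Pool.Agent.Results.MP_e10cd8_co.SharpOrder
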